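import Mathlib

set_option autoImplicit false

/-!
A Lipschitz homeomorphism of the nonseparable Hilbert space `ℓ²(ℝ)` (the index set is the set of
real numbers) onto itself which is Gâteaux differentiable at no point: apply the function
`t ↦ t` (`t ≥ 0`), `t ↦ 2 t` (`t < 0`) in each coordinate. Every point of the space has a vanishing
coordinate, and the map has no derivative in the direction of the corresponding unit vector.
-/

namespace Pool.Agent.Results.MP_714461_an.NowhereGateaux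

open Filter Topology

/-- `φ` is Gâteaux differentiable at `x₀`: there is a bounded linear operator `T` with
`(φ (x₀ + t h) - φ x₀) / t → T h` in norm as `t → 0`, for every `h`. -/
def GateauxDiffAt {X Y : Type*} [NormedAddCommGroup X] [NormedSpace ℝ X]
    [NormedAddCommGroup Y] [NormedSpace ℝ Y] (φ : X → Y) (x₀ : X) : Prop :=
  ∃ T : X →L[ℝ] Y, ∀ h : X,
    Tendsto (fun t : ℝ => t⁻¹ • (φ (x₀ + t • h) - φ x₀)) (𝓝[≠] 0) (𝓝 (T h))

/-- `φ` is a Lipschitz homeomorphism of `X` onto `Y`: a bijection such that `φ` and its inverse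
are Lipschitz. -/
def IsLipschitzHomeo {X Y : Type*} [NormedAddCommGroup X] [NormedAddCommGroup Y]
    (φ : X → Y) : Prop :=
  Function.Bijective φ ∧ (∃ K : NNReal, LipschitzWith K φ) ∧ ∃ K : NNReal, AntilipschitzWith K φ

/-- The piecewise linear function `t` for `t ≥ 0`, `2 t` for `t < 0`. -/
noncomputable def g (t : ℝ) : ℝ := if 0 ≤ t then t else 2 * t

/-- Its inverse. -/
noncomputable def gi (t : ℝ) : ℝ := if 0 ≤ t then t else t / 2

lemma g_zero : g 0 = 0 := by simp [g]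

lemma gi_zero : gi 0 = 0 := by simp [gi]

lemma gi_g (t : ℝ) : gi (g t) = t := by
  unfold g gi
  by_cases h : 0 ≤ t
  · simp [h]
  · rw [if_neg h, if_neg (by linarith)]; ring

lemma g_gi (t : ℝ) : g (gi t) = t := by
  unfold g gi
  by_cases h : 0 ≤ t
  · simp [h]
  · rw [if_neg h, if_neg (by linarith)]; ring

lemma abs_g_sub (s t : ℝ) : |g s - g t| ≤ 2 * |s - t| := by
  unfold g
  rcases abs_cases (s - t) with h | h <;> rw [h.1, abs_le] <;> split_ifs <;> constructor <;> linarith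

lemma abs_gi_sub (s t : ℝ) : |gi s - gi t| ≤ 1 * |s - t| := by
  unfold gi
  rcases abs_cases (s - t) with h | h <;> rw [h.1, abs_le] <;> split_ifs <;> constructor <;> linarith

section
variable {Γ : Type}

/-- Coordinatewise application of a Lipschitz function vanishing at `0`. -/
noncomputable def coord (f : ℝ → ℝ) (C : ℝ) (h0 : f 0 = 0) (hf : ∀ s t, |f s - f t| ≤ C * |s - t|)
    (x : lp (fun _ : Γ => ℝ) 2) : lp (fun _ : Γ => ℝ) 2 :=
  ⟨fun γ => f (x γ), by
    have h1 : Memℓp (fun γ => C * x γ) 2 := (lp.memℓp x).const_mul C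
    refine h1.mono' fun γ => ?_
    have h2 := hf (x γ) 0
    rw [h0, sub_zero, sub_zero] at h2
    rw [Real.norm_eq_abs, Real.norm_eq_abs, abs_mul]
    exact h2.trans (mul_le_mul_of_nonneg_right (le_abs_self C) (abs_nonneg _))⟩

lemma coord_apply (f : ℝ → ℝ) (C : ℝ) (h0 : f 0 = 0) (hf : ∀ s t, |f s - f t| ≤ C * |s - t|)
    (x : lp (fun _ : Γ => ℝ) 2) (γ : Γ) : coord f C h0 hf x γ = f (x γ) := rfl

lemma coord_lip (f : ℝ → ℝ) (C : ℝ) (hC : 0 ≤ C) (h0 : f 0 = 0)
    (hf : ∀ s t, |f s - f t| ≤ C * |s - t|) :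
    LipschitzWith C.toNNReal (coord (Γ := Γ) f C h0 hf) := by
  refine LipschitzWith.of_dist_le_mul fun x y => ?_
  rw [dist_eq_norm, dist_eq_norm, Real.coe_toNNReal C hC]
  have h1 : ‖coord f C h0 hf x - coord f C h0 hf y‖ ≤ ‖C • (x - y)‖ := by
    refine lp.norm_mono two_ne_zero fun γ => ?_
    rw [lp.coeFn_sub, Pi.sub_apply, lp.coeFn_smul, Pi.smul_apply, lp.coeFn_sub, Pi.sub_apply,
      smul_eq_mul, coord_apply, coord_apply, Real.norm_eq_abs, Real.norm_eq_abs, abs_mul,
      abs_of_nonneg hC]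
    exact hf _ _
  rwa [norm_smul, Real.norm_eq_abs, abs_of_nonneg hC] at h1

end

/-- The map. -/
noncomputable def φ (x : lp (fun _ : ℝ => ℝ) 2) : lp (fun _ : ℝ => ℝ) 2 :=
  coord g 2 g_zero abs_g_sub x

/-- Its inverse. -/
noncomputable def ψ (x : lp (fun _ : ℝ => ℝ) 2) : lp (fun _ : ℝ => ℝ) 2 :=
  coord gi 1 gi_zero abs_gi_sub x

lemma ψ_φ (x : lp (fun _ : ℝ => ℝ) 2) : ψ (φ x) = x := by
  ext γ; exact gi_g _

lemma φ_ψ (x : lp (fun _ : ℝ => ℝ) 2) : φ (ψ x) = x := by
  ext γ; exact g_gi _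

lemma homeo : IsLipschitzHomeo φ := by
  refine ⟨⟨Function.LeftInverse.injective ψ_φ, Function.RightInverse.surjective φ_ψ⟩,
    ⟨_, coord_lip g 2 (by norm_num) g_zero abs_g_sub⟩,
    ⟨_, (coord_lip gi 1 (by norm_num) gi_zero abs_gi_sub).to_rightInverse ψ_φ⟩⟩

lemma exists_zero_coord (x : lp (fun _ : ℝ => ℝ) 2) : ∃ γ : ℝ, x γ = 0 := by
  by_contra h
  push Not at h
  have h1 : {γ | x γ ≠ 0}.Countable := by
    refine ((lp.memℓp x).summable (by norm_num)).countable_support.mono fun γ hγ => ?_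
    have hγ' : 0 < ‖x γ‖ := norm_pos_iff.2 hγ
    rw [Function.mem_support]
    positivity
  have h2 : {γ | x γ ≠ 0} = Set.univ := Set.eq_univ_of_forall h
  rw [h2] at h1
  exact Cardinal.not_countable_real h1

lemma not_gateaux (x : lp (fun _ : ℝ => ℝ) 2) : ¬ GateauxDiffAt φ x := by
  classical
  rintro ⟨T, hT⟩
  obtain ⟨γ, hγ⟩ := exists_zero_coord x
  set e : lp (fun _ : ℝ => ℝ) 2 := lp.single 2 γ (1 : ℝ) with he
  have he1 : e γ = 1 := by rw [he, lp.single_apply_self]
  have h1 := hT e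
  have h2 : Tendsto (fun t : ℝ => (t⁻¹ • (φ (x + t • e) - φ x)) γ) (𝓝[≠] 0) (𝓝 (T e γ)) :=
    ((lp.evalCLM ℝ (fun _ : ℝ => ℝ) 2 γ).continuous.tendsto _).comp h1
  have h3 : ∀ t : ℝ, (t⁻¹ • (φ (x + t • e) - φ x)) γ = t⁻¹ * g t := by
    intro t
    rw [lp.coeFn_smul, Pi.smul_apply, lp.coeFn_sub, Pi.sub_apply, smul_eq_mul]
    change t⁻¹ * (g ((x + t • e) γ) - g (x γ)) = _
    rw [lp.coeFn_add, Pi.add_apply, lp.coeFn_smul, Pi.smul_apply, hγ, he1, smul_eq_mul, mul_one,
      zero_add, g_zero, sub_zero]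
  simp only [h3] at h2
  have hp : Tendsto (fun t : ℝ => t⁻¹ * g t) (𝓝[>] 0) (𝓝 1) := by
    refine (tendsto_congr' ?_).2 tendsto_const_nhds
    filter_upwards [self_mem_nhdsWithin] with t ht
    have ht' : (0 : ℝ) < t := ht
    rw [g, if_pos ht'.le, inv_mul_cancel₀ ht'.ne']
  have hm : Tendsto (fun t : ℝ => t⁻¹ * g t) (𝓝[<] 0) (𝓝 2) := by
    refine (tendsto_congr' ?_).2 tendsto_const_nhds
    filter_upwards [self_mem_nhdsWithin] with t ht
    have ht' : t < 0 := ht
    rw [g, if_neg (not_le.2 ht')]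
    field_simp [ht'.ne]
  have s1 : (𝓝[>] (0 : ℝ)) ≤ 𝓝[≠] 0 := nhdsWithin_mono _ fun t (ht : 0 < t) => ht.ne'
  have s2 : (𝓝[<] (0 : ℝ)) ≤ 𝓝[≠] 0 := nhdsWithin_mono _ fun t (ht : t < 0) => ht.ne
  have e1 := tendsto_nhds_unique (h2.mono_left s1) hp
  have e2 := tendsto_nhds_unique (h2.mono_left s2) hm
  rw [e1] at e2
  norm_num at e2

/-- There is no countable dense subset. -/
lemma not_separable : ¬ TopologicalSpace.SeparableSpace (lp (fun _ : ℝ => ℝ) 2) := by
  classical
  intro h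
  obtain ⟨c, hc, hd⟩ := h.exists_countable_dense
  have hne : ∃ γ : ℝ, ∀ x ∈ c, x γ = 0 := by
    by_contra hcon
    push Not at hcon
    have h1 : (⋃ x ∈ c, {γ : ℝ | (x : lp (fun _ : ℝ => ℝ) 2) γ ≠ 0}).Countable := by
      refine hc.biUnion fun x _ => ?_
      refine ((lp.memℓp x).summable (by norm_num)).countable_support.mono fun γ hγ => ?_
      have hγ' : 0 < ‖x γ‖ := norm_pos_iff.2 hγ
      rw [Function.mem_support]
      positivity
    have h2 : (⋃ x ∈ c, {γ : ℝ | (x : lp (fun _ : ℝ => ℝ) 2) γ ≠ 0}) = Set.univ := by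
      refine Set.eq_univ_of_forall fun γ => ?_
      obtain ⟨x, hx, hxγ⟩ := hcon γ
      exact Set.mem_biUnion hx hxγ
    rw [h2] at h1
    exact Cardinal.not_countable_real h1
  obtain ⟨γ, hγ⟩ := hne
  obtain ⟨x, hx, hdist⟩ := Metric.dense_iff.1 hd (lp.single 2 γ (1 : ℝ)) 1 one_pos
  have h3 := lp.norm_apply_le_norm two_ne_zero (x - lp.single 2 γ (1 : ℝ)) γ
  rw [lp.coeFn_sub, Pi.sub_apply, hγ x hdist, lp.single_apply_self] at h3
  rw [Metric.mem_ball, dist_eq_norm] at hx
  norm_num at h3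
  linarith

/-- There are nonseparable superreflexive (in particular reflexive) Banach spaces `X`, `Y`, namely
`X = Y =` the Hilbert space `ℓ²(ℝ)`, and a Lipschitz homeomorphism of `X` onto `Y` which is
Gâteaux differentiable at no point of `X`. -/
theorem result :
    ∃ (H : Type) (_ : NormedAddCommGroup H) (_ : InnerProductSpace ℝ H),
      CompleteSpace H ∧ UniformConvexSpace H ∧
      Function.Surjective (NormedSpace.inclusionInDoubleDual ℝ H) ∧
      ¬ TopologicalSpace.SeparableSpace H ∧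
      ∃ φ : H → H, IsLipschitzHomeo φ ∧ ∀ x : H, ¬ GateauxDiffAt φ x := by
  refine ⟨lp (fun _ : ℝ => ℝ) 2, inferInstance, inferInstance, inferInstance, inferInstance, ?_,
    not_separable, φ, homeo, not_gateaux⟩
  intro F
  let J := InnerProductSpace.toDual ℝ (lp (fun _ : ℝ => ℝ) 2)
  -- the functional `y ↦ F (J y)` is represented by a vector `z`
  let G : StrongDual ℝ (lp (fun _ : ℝ => ℝ) 2) :=
    LinearMap.mkContinuous
      { toFun := fun y => F (J y)
        map_add' := fun y z => by rw [map_add, map_add]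
        map_smul' := fun c y => by
          rw [map_smulₛₗ, conj_trivial, map_smul, RingHom.id_apply] } ‖F‖ fun y => by
      have h := F.le_opNorm (J y)
      rwa [J.norm_map] at h
  refine ⟨J.symm G, ?_⟩
  ext f
  have h1 : (inner ℝ (J.symm G) (J.symm f) : ℝ) = G (J.symm f) :=
    InnerProductSpace.toDual_symm_apply
  have h2 : (inner ℝ (J.symm f) (J.symm G) : ℝ) = f (J.symm G) :=
    InnerProductSpace.toDual_symm_apply
  rw [NormedSpace.dual_def, ← h2, real_inner_comm, h1]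
  change F (J (J.symm f)) = F f
  rw [J.apply_symm_apply]

end Pool.Agent.Results.MP_714461_an.NowhereGateaux
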